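import Pool.Agent.T6.H25.PW.Fin

set_option autoImplicit false

/-!
# Palindromic length in solvable groups of derived length four

`palLength` (in `Pool.Agent.T6.H25.PW.Basic`) is the palindromic length of the problem file.
-/

universe u

namespace Pool.Agent.Results.MP_738270_al.FourStep

open Subgroup Pool.Agent.T6.H25.PW

/-- For all `k` there is `N` such that in all groups `G` with `G⁽⁴⁾ = 1` generated by a set `X` of
`k` elements all commutators and all squares of elements of `[G, G]` have palindromic length at
most `N` over `X`. -/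
theorem result (k : ℕ) : ∃ N : ℕ, ∀ (G : Type u) [Group G] (X : Set G), X.Finite → X.ncard = k →
    closure X = ⊤ → derivedSeries G 4 = ⊥ →
    (∀ a b : G, palLength X (a * b * a⁻¹ * b⁻¹) ≤ N) ∧
    (∀ g ∈ commutator G, palLength X (g ^ 2) ≤ N) := by
  obtain ⟨N, hN⟩ := four.{u} k
  refine ⟨N, fun G _ X hfin hk hX hd => ?_⟩
  subst hk
  obtain ⟨x, hx⟩ := exists_fin hfin
  obtain ⟨h1, h2⟩ := hN G X x hX (by rw [hx, hX]) (fun l => hx ▸ Set.mem_range_self l) hd
  exact ⟨fun a b => palLength_le (h1 a b), fun g hg => palLength_le (h2 g hg)⟩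

end Pool.Agent.Results.MP_738270_al.FourStep
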