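import Pool.Agent.T6.H25.PW.Fin

set_option autoImplicit false

/-!
# Palindromic width of finitely generated solvable groups, every finite generating set

`wordValue`, `IsPalindrome`, `palLength`, `palWidth` (in `Pool.Agent.T6.H25.PW.Basic`) are the
notions of the problem file; `KK D` is the subgroup `[D, G] D²` generated by the commutators
`[a, g]`, `a ∈ D`, `g ∈ G`, and the squares of the elements of `D`.
-/

universe u

namespace Pool.Agent.Results.MP_738270_al.SquareQuotients

open Subgroup Pool.Agent.T6.H25.PW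

/-- For all `k` and `d` there is a function `F` such that for every group `G` with `G⁽ᵈ⁾ = 1` and
every generating set `X` of `k` elements:

if, for all `3 ≤ i < d`, the images of the elements of `G⁽ⁱ⁾` in the quotient of `G` by
`[G⁽ⁱ⁾, G] (G⁽ⁱ⁾)²` are products of at most `m` palindromes, then `PW(G, X) ≤ F m`;

in particular, if `G⁽ⁱ⁾ / [G⁽ⁱ⁾, G] (G⁽ⁱ⁾)²` is finite for all `3 ≤ i < d`, then
`PW(G, X) < ∞`. -/
theorem result (k d : ℕ) : ∃ F : ℕ → ℕ, ∀ (G : Type u) [Group G] (X : Set G),
    X.Finite → X.ncard = k → closure X = ⊤ → derivedSeries G d = ⊥ →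
    (∀ m : ℕ, (∀ i, 3 ≤ i → i < d → ∀ g ∈ derivedSeries G i,
      palLength (QuotientGroup.mk' (KK (derivedSeries G i)) '' X)
        (QuotientGroup.mk' (KK (derivedSeries G i)) g) ≤ m) → palWidth X ≤ F m) ∧
    ((∀ i, 3 ≤ i → i < d → (KK (derivedSeries G i)).relIndex (derivedSeries G i) ≠ 0) →
      palWidth X < ⊤) := by
  choose F hF using fun m => main_quant.{u} k d m
  refine ⟨F, fun G _ X hfin hk hX hd => ?_⟩
  subst hk
  obtain ⟨x, hx⟩ := exists_fin hfin
  refine ⟨fun m hm => palWidth_le fun g => PP_of_bot hd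
    (hF m G X x hX (by rw [hx, hX]) (fun l => hx ▸ Set.mem_range_self l)
      (fun i h h' g hg => B_of_palLength _ (hm i h h' g hg)) g), fun hyp => ?_⟩
  obtain ⟨N, hN⟩ := main_fin hX x (by rw [hx, hX]) (fun l => hx ▸ Set.mem_range_self l) d hyp
  exact lt_of_le_of_lt (palWidth_le fun g => PP_of_bot hd (hN g)) (WithTop.coe_lt_top N)

end Pool.Agent.Results.MP_738270_al.SquareQuotients
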